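import Pool.Agent.W580.SH.StmB

/-!
Project SH (helper580), problem MP_ba6ea3_co: part SH-CONF1 (helper654).
-/

set_option autoImplicit false

open Finset
open Pool.Agent.W580.SH

namespace Pool.Agent.W654.SH

theorem det_ne {n : ℕ} (M Q : Matrix (Fin n) (Fin n) ℤ) (h : M * Q = 1) : M.det ≠ 0 := by
  intro h0
  have := congrArg Matrix.det h
  rw [Matrix.det_mul, h0, zero_mul, Matrix.det_one] at this
  exact zero_ne_one this

theorem conf {R : Type} {A : Set (R → ℤ)} {O : R → ℝ} {θ : ℝ} (H : KeyProp A O θ) {k : ℕ}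
    (r : Fin k → R) (hr : ∀ a, O (r a) = θ) (p : Fin (k + 1) → (R → ℤ)) (hp : ∀ b, p b ∈ A)
    (P : Fin (k + 1) → Fin k → ℤ) (hP : ∀ b a, p b (r a) = P b a)
    (Q : Matrix (Fin (k + 1)) (Fin (k + 1)) ℤ)
    (hQ : (Matrix.of (Fin.cons (fun _ => 1) (fun a j => P j a)) :
      Matrix (Fin (k + 1)) (Fin (k + 1)) ℤ) * Q = 1)
    (w : Fin (k + 1) → ℝ) (hw : ∑ j, w j = 1) (hw2 : ∀ a, ∑ j, w j * (P j a : ℝ) = θ)
    (F : Finset (Fin (k + 1))) : -θ ≤ ∑ j ∈ F, w j := by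
  have hM : oneMat r p = Matrix.of (Fin.cons (fun _ => 1) (fun a j => P j a)) := by
    unfold oneMat
    congr 2
    funext a j
    exact hP j a
  refine (H k r p hp).2 ?_ w hw ?_ F
  · rw [hM]
    exact det_ne _ Q hQ
  · intro a
    rw [hr a, ← hw2 a]
    apply Finset.sum_congr rfl
    intro j _
    rw [hP j a]

theorem c00 : S_C00 := by
  intro R _ _ I A O θ H r hr p hp h0 h1 h2 h3 h4 h5
  have h := conf H.key r hr p hp
    ![![1, 1, 0, 0, 0], ![1, 0, 1, 0, 0], ![1, 0, 0, 0, 0], ![0, 0, 0, 0, 0], ![0, 0, 0, 1, 0],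
      ![0, 0, 0, 0, 1]]
    (by
      intro b a
      fin_cases b
      · exact h0 a
      · exact h1 a
      · exact h2 a
      · exact h3 a
      · exact h4 a
      · exact h5 a)
    ![![0, 0, 1, 0, 0, 0], ![0, 0, 0, 1, 0, 0], ![0, 1, -1, -1, 0, 0], ![1, -1, 0, 0, -1, -1],
      ![0, 0, 0, 0, 1, 0], ![0, 0, 0, 0, 0, 1]]
    (by decide)
    ![θ, θ, -θ, 1 - 3 * θ, θ, θ]
    (by simp [Fin.sum_univ_six]; ring)
    (by
      intro a
      fin_cases a <;> simp [Fin.sum_univ_six])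
    {2, 3}
  rw [Finset.sum_insert (by decide), Finset.sum_singleton] at h
  simp at h
  linarith

theorem c10 : S_C10 := by
  intro R _ _ I A O θ H r hr p hp h0 h1 h2 h3 h4 h5
  have h := conf H.key r hr p hp
    ![![0, 1, 0, 1, 0], ![0, 1, 0, 0, 1], ![0, 1, 0, 0, 0], ![0, 0, 0, 0, 0], ![1, 0, 0, 1, 0],
      ![0, 0, 1, 1, 0]]
    (by
      intro b a
      fin_cases b
      · exact h0 a
      · exact h1 a
      · exact h2 a
      · exact h3 a
      · exact h4 a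
      · exact h5 a)
    ![![0, -1, 0, -1, 1, 0], ![0, 0, 0, 0, 0, 1], ![0, 1, 1, 1, -1, -1], ![1, -1, -1, -1, 0, 0],
      ![0, 1, 0, 0, 0, 0], ![0, 0, 0, 1, 0, 0]]
    (by decide)
    ![-θ, θ, θ, 1 - 3 * θ, θ, θ]
    (by simp [Fin.sum_univ_six]; ring)
    (by
      intro a
      fin_cases a <;> simp [Fin.sum_univ_six])
    {0, 3}
  rw [Finset.sum_insert (by decide), Finset.sum_singleton] at h
  simp at h
  linarith

theorem cn : S_CN := by
  intro R _ _ I A O θ H r hr p hp h0 h1 h2 h3 h4 h5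
  have h := conf H.key r hr p hp
    ![![1, 1, 0, 1, 0], ![1, 0, 1, 0, 0], ![1, 0, 0, 0, 0], ![0, 0, 0, 0, 0], ![0, 1, 0, 0, 1],
      ![0, 1, 0, 0, 0]]
    (by
      intro b a
      fin_cases b
      · exact h0 a
      · exact h1 a
      · exact h2 a
      · exact h3 a
      · exact h4 a
      · exact h5 a)
    ![![0, 0, 0, 0, 1, 0], ![0, 0, 0, 1, 0, 0], ![0, 1, 0, -1, -1, 0], ![1, -1, -1, 0, 1, 0],
      ![0, 0, 0, 0, 0, 1], ![0, 0, 1, 0, -1, -1]]
    (by decide)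
    ![θ, θ, -θ, 1 - θ, θ, -θ]
    (by simp [Fin.sum_univ_six])
    (by
      intro a
      fin_cases a <;> simp [Fin.sum_univ_six])
    {2, 5}
  rw [Finset.sum_insert (by decide), Finset.sum_singleton] at h
  simp at h
  have := H.pos
  linarith

end Pool.Agent.W654.SH
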