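import Pool.Agent.W836.SH.Stm

open scoped Classical
open Pool.Agent.W836.SH

set_option autoImplicit false

namespace Pool.Agent.W654.SH

lemma contr {ι : Type} {n : ℕ} (u w : ι → ℝ) (i : ι) (T : Fin n → ι → ℝ)
    (r : Fin (n + 1) → ι) (huw : u i = w i) (hw : pm (w i)) (hT : ∀ j, T j i = 0) :
    |(Matrix.of fun a b => (Fin.cons (u - w) T : Fin (n + 1) → ι → ℝ) b (r a) :
      Matrix (Fin (n + 1)) (Fin (n + 1)) ℝ).det| =
    |(Matrix.of fun a b =>
        (Fin.cons u (Fin.cons w T : Fin (n + 1) → ι → ℝ) : Fin (n + 2) → ι → ℝ) b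
          ((Fin.cons i r : Fin (n + 2) → ι) a) :
      Matrix (Fin (n + 2)) (Fin (n + 2)) ℝ).det| := by
  set A : Matrix (Fin (n + 2)) (Fin (n + 2)) ℝ := Matrix.of fun a b =>
        (Fin.cons u (Fin.cons w T : Fin (n + 1) → ι → ℝ) : Fin (n + 2) → ι → ℝ) b
          ((Fin.cons i r : Fin (n + 2) → ι) a) with hA
  have h01 : (0 : Fin (n + 2)) ≠ 1 := by simp
  have hdet := Matrix.det_updateCol_add_smul_self A h01 (-1)
  rw [← hdet]
  set A' := A.updateCol 0 (fun k => A k 0 + (-1 : ℝ) • A k 1) with hA'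
  rw [Matrix.det_succ_row_zero A']
  rw [Finset.sum_eq_single (1 : Fin (n + 2))]
  · have e1 : A' 0 1 = w i := by
      simp [hA', hA]
    have hsub : A'.submatrix Fin.succ (Fin.succAbove 1) =
        (Matrix.of fun a b => (Fin.cons (u - w) T : Fin (n + 1) → ι → ℝ) b (r a) :
          Matrix (Fin (n + 1)) (Fin (n + 1)) ℝ) := by
      ext a b
      refine Fin.cases ?_ (fun b => ?_) b
      · simp [hA', hA, sub_eq_add_neg]
      · have hb : (Fin.succAbove (1 : Fin (n + 2)) b.succ) = b.succ.succ := by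
          rw [Fin.succAbove_of_le_castSucc]
          rw [Fin.le_def]
          simp
        simp [hA', hA, hb]
    rw [e1, hsub, abs_mul, abs_mul]
    rcases hw with hw | hw <;> simp [hw]
  · intro b _ hb
    have : A' 0 b = 0 := by
      revert hb
      refine Fin.cases ?_ (fun b => ?_) b
      · intro _
        simp [hA', hA, huw]
      · refine Fin.cases ?_ (fun b => ?_) b
        · intro h
          exact absurd rfl h
        · intro _
          simp [hA', hA, hT]
    rw [this]
    ring
  · intro h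
    exact absurd (Finset.mem_univ _) h

theorem c1 : S_C1 := by
  intro ι V i z z' hTS hz hz' hzi hpm n r t ht hti
  rw [contr z z' i t r hzi (hzi ▸ hpm) hti]
  apply hTS
  intro j
  refine Fin.cases ?_ (fun j => ?_) j
  · simpa using hz
  · refine Fin.cases ?_ (fun j => ?_) j
    · simpa using hz'
    · simpa using ht j

/-- a cyclic permutation of the first three indices -/
def cyc (n : ℕ) : Equiv.Perm (Fin (n + 3)) :=
  Equiv.swap (0 : Fin (n + 3)) (Fin.succ (0 : Fin (n + 2))) *
    Equiv.swap (Fin.succ (0 : Fin (n + 2))) (Fin.succ (Fin.succ (0 : Fin (n + 1))))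

lemma cyc0 (n : ℕ) : cyc n 0 = Fin.succ (0 : Fin (n + 2)) := by
  unfold cyc
  rw [Equiv.Perm.mul_apply, Equiv.swap_apply_of_ne_of_ne (Fin.succ_ne_zero _).symm
    (Fin.succ_ne_zero _).symm, Equiv.swap_apply_left]

lemma cyc1 (n : ℕ) : cyc n (Fin.succ (0 : Fin (n + 2))) =
    Fin.succ (Fin.succ (0 : Fin (n + 1))) := by
  unfold cyc
  rw [Equiv.Perm.mul_apply, Equiv.swap_apply_left, Equiv.swap_apply_of_ne_of_ne
    (Fin.succ_ne_zero _) (fun h => Fin.succ_ne_zero _ (Fin.succ_injective _ h))]

lemma cyc2 (n : ℕ) : cyc n (Fin.succ (Fin.succ (0 : Fin (n + 1)))) = 0 := by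
  unfold cyc
  rw [Equiv.Perm.mul_apply, Equiv.swap_apply_right, Equiv.swap_apply_right]

lemma cyc3 (n : ℕ) (b : Fin n) : cyc n b.succ.succ.succ = b.succ.succ.succ := by
  unfold cyc
  rw [Equiv.Perm.mul_apply, Equiv.swap_apply_of_ne_of_ne (a := Fin.succ (0 : Fin (n + 2))),
    Equiv.swap_apply_of_ne_of_ne]
  · exact Fin.succ_ne_zero _
  · exact fun h => Fin.succ_ne_zero _ (Fin.succ_injective _ h)
  · exact fun h => Fin.succ_ne_zero _ (Fin.succ_injective _ h)
  · exact fun h => Fin.succ_ne_zero _ (Fin.succ_injective _ (Fin.succ_injective _ h))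

theorem c2 : S_C2 := by
  intro ι V i l z z' y y' hTS hz hz' hy hy' hzi hpz hzl hzl' hyl hpy hyi hyi' n r t ht hti htl
  rw [contr z z' i (Fin.cons (y - y') t : Fin (n + 1) → ι → ℝ) r hzi (hzi ▸ hpz)]
  · -- permute
    set d : ι → ℝ := y - y' with hd
    set B : Matrix (Fin (n + 3)) (Fin (n + 3)) ℝ := Matrix.of fun a b =>
      (Fin.cons d (Fin.cons z (Fin.cons z' t : Fin (n + 1) → ι → ℝ) : Fin (n + 2) → ι → ℝ) :
        Fin (n + 3) → ι → ℝ) b ((Fin.cons i r : Fin (n + 3) → ι) a) with hB
    have hcomp : (Matrix.of fun a b =>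
        (Fin.cons z (Fin.cons z' (Fin.cons d t : Fin (n + 1) → ι → ℝ) : Fin (n + 2) → ι → ℝ) :
          Fin (n + 3) → ι → ℝ) b ((Fin.cons i r : Fin (n + 3) → ι) a) :
        Matrix (Fin (n + 3)) (Fin (n + 3)) ℝ) = B.submatrix (Equiv.refl _) (cyc n) := by
      ext a b
      refine Fin.cases ?_ (fun b => ?_) b
      · simp only [Matrix.submatrix_apply, Matrix.of_apply, hB, cyc0]
        rfl
      · refine Fin.cases ?_ (fun b => ?_) b
        · simp only [Matrix.submatrix_apply, Matrix.of_apply, hB, cyc1]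
          rfl
        · refine Fin.cases ?_ (fun b => ?_) b
          · simp only [Matrix.submatrix_apply, Matrix.of_apply, hB, cyc2]
            rfl
          · simp only [Matrix.submatrix_apply, Matrix.of_apply, hB, cyc3]
            rfl
    rw [hcomp, Matrix.abs_det_submatrix_equiv_equiv, hB, hd]
    rw [contr y y' l (Fin.cons z (Fin.cons z' t : Fin (n + 1) → ι → ℝ) : Fin (n + 2) → ι → ℝ)
      (Fin.cons i r : Fin (n + 3) → ι) hyl (hyl ▸ hpy)]
    · apply hTS
      intro j
      refine Fin.cases ?_ (fun j => ?_) j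
      · exact hy
      · refine Fin.cases ?_ (fun j => ?_) j
        · exact hy'
        · refine Fin.cases ?_ (fun j => ?_) j
          · exact hz
          · refine Fin.cases ?_ (fun j => ?_) j
            · exact hz'
            · exact ht j
    · intro j
      refine Fin.cases ?_ (fun j => ?_) j
      · simpa using hzl
      · refine Fin.cases ?_ (fun j => ?_) j
        · simpa using hzl'
        · simpa using htl j
  · intro j
    refine Fin.cases ?_ (fun j => ?_) j
    · simp [hyi, hyi']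
    · simpa using hti j

end Pool.Agent.W654.SH
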